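import Pool.Agent.H53R2.SFinal

/-!
# Soluble varieties of groups: one test group and three generators

Additions to the library `H53R2`.
-/

set_option autoImplicit false

namespace Pool.Agent.Y968.SV

open Pool.Agent.H53R2
open scoped commutatorElement

/-! ## The laws of the groups of bounded derived length -/

/-- the laws of the groups of derived length at most `d` in the variety defined by `W` -/
def Wd (W : Set (FreeGroup ℕ)) (d : ℕ) : Set (FreeGroup ℕ) :=
  W ∪ {w | w ∈ derivedSeries (FreeGroup ℕ) d}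

theorem inVar_Wd {W : Set (FreeGroup ℕ)} {d : ℕ} {G : Type} [Group G] (hG : InVar W G)
    (hd : derivedSeries G d = ⊥) : InVar (Wd W d) G := by
  rintro w (hw | hw) f
  · exact hG w hw f
  · have h1 : FreeGroup.lift f w ∈ (derivedSeries (FreeGroup ℕ) d).map (FreeGroup.lift f) :=
      ⟨w, hw, rfl⟩
    have h2 := map_derivedSeries_le_derivedSeries (FreeGroup.lift f) d h1
    rw [hd] at h2
    exact Subgroup.mem_bot.1 h2

theorem inVar_of_Wd {W : Set (FreeGroup ℕ)} {d : ℕ} {G : Type} [Group G]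
    (hG : InVar (Wd W d) G) : InVar W G := fun w hw f => hG w (Or.inl hw) f

theorem derived_of_Wd {W : Set (FreeGroup ℕ)} {d : ℕ} {G : Type} [Group G] [Countable G]
    (hG : InVar (Wd W d) G) : derivedSeries G d = ⊥ := by
  obtain ⟨f, hf⟩ : ∃ f : ℕ → G, Function.Surjective f := exists_surjective_nat G
  have hs : Function.Surjective (FreeGroup.lift f) := fun g => by
    obtain ⟨n, rfl⟩ := hf g
    exact ⟨FreeGroup.of n, FreeGroup.lift_apply_of⟩
  rw [← map_derivedSeries_eq hs d, eq_bot_iff]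
  rintro _ ⟨w, hw, rfl⟩
  exact hG w (Or.inr hw) f

/-! ## The Hopf property -/

/-- surjective endomorphisms are injective -/
def Hopf (G : Type) [Group G] : Prop :=
  ∀ φ : G →* G, Function.Surjective φ → Function.Injective φ

theorem Hopf.of_equiv {G H : Type} [Group G] [Group H] (e : G ≃* H) (h : Hopf G) : Hopf H := by
  intro φ hφ
  have h1 := h ((e.symm.toMonoidHom.comp φ).comp e.toMonoidHom)
    (e.symm.surjective.comp (hφ.comp e.surjective))
  intro x y hxy
  have h2 : e.symm x = e.symm y := by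
    apply h1
    change e.symm (φ (e (e.symm x))) = e.symm (φ (e (e.symm y)))
    rw [e.apply_symm_apply, e.apply_symm_apply, hxy]
  exact e.symm.injective h2

/-- one Hopfian quotient gives a one-sided identity -/
theorem hopf_auto' {P : Type} [Group P] (α : MulAut P) (ρ : P)
    (hH : Hopf (P ⧸ Subgroup.normalClosure {x : P | ∃ k : ℕ, x = (α ^ (-(k : ℤ))) ρ})) :
    ρ ∈ Subgroup.normalClosure {x : P | ∃ k : ℕ, x = (α ^ (-((k : ℤ) + 1))) ρ} := by
  set D : Subgroup P := Subgroup.normalClosure {x : P | ∃ k : ℕ, x = (α ^ (-(k : ℤ))) ρ} with hD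
  have hmap : D.map ((α⁻¹ : MulAut P) : P ≃* P).toMonoidHom =
      Subgroup.normalClosure {x : P | ∃ k : ℕ, x = (α ^ (-((k : ℤ) + 1))) ρ} := by
    rw [hD, map_normalClosure_aut]
    congr 1
    ext x
    constructor
    · rintro ⟨_, ⟨k, rfl⟩, rfl⟩
      refine ⟨k, ?_⟩
      have : -((k : ℤ) + 1) = -1 + -(k : ℤ) := by ring
      rw [this, zpow_add, MulAut.mul_apply, zpow_neg_one]
    · rintro ⟨k, rfl⟩
      refine ⟨_, ⟨k, rfl⟩, ?_⟩
      have : -((k : ℤ) + 1) = -1 + -(k : ℤ) := by ring
      rw [this, zpow_add, MulAut.mul_apply, zpow_neg_one]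
  have hle : D.map ((α⁻¹ : MulAut P) : P ≃* P).toMonoidHom ≤ D := by
    rw [hmap]
    apply Subgroup.normalClosure_mono
    rintro x ⟨k, rfl⟩
    exact ⟨k + 1, by push_cast; rfl⟩
  have hinj := hH (QuotientGroup.map D D ((α⁻¹ : MulAut P) : P ≃* P).toMonoidHom
    (Subgroup.map_le_iff_le_comap.mp hle)) (by
      intro y
      obtain ⟨y, rfl⟩ := QuotientGroup.mk'_surjective D y
      refine ⟨QuotientGroup.mk' D (α y), ?_⟩
      change QuotientGroup.mk' D (α⁻¹ (α y)) = QuotientGroup.mk' D y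
      rw [MulAut.inv_apply_self])
  have h1 : QuotientGroup.mk' D (α ρ) = 1 := by
    apply hinj
    rw [map_one]
    change QuotientGroup.mk' D (α⁻¹ (α ρ)) = 1
    rw [MulAut.inv_apply_self, QuotientGroup.mk'_apply, QuotientGroup.eq_one_iff]
    exact Subgroup.subset_normalClosure ⟨0, by simp⟩
  rw [QuotientGroup.mk'_apply, QuotientGroup.eq_one_iff] at h1
  rw [← hmap]
  exact ⟨α ρ, h1, MulAut.inv_apply_self _ _ _⟩

/-- the universal identity from the Hopf property of one group -/
theorem test_UI (W : Set (FreeGroup ℕ))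
    (hT : Hopf (RF W 3 ⧸ Subgroup.normalClosure {x : RF W 3 | ∃ k : ℕ, x =
      ⁅(RF.gen W 0 : RF W 3), RF.gen W 2 ^ (-(k : ℤ)) * RF.gen W 1 * RF.gen W 2 ^ (k : ℤ)⁆})) :
    ∃ u : UI, ∀ (G : Type) [Group G], InVar W G → u.Grp G := by
  obtain ⟨α, hα1, hα2⟩ := J_aut W 3 1 2 (by decide)
  have hαb : α (RF.gen W 0) = RF.gen W 0 := hα1 0 (by decide)
  have hαt : α (RF.gen W 2) = RF.gen W 2 := hα1 2 (by decide)
  have hρ : ∀ k : ℤ, (α ^ k) ⁅(RF.gen W 0 : RF W 3), RF.gen W 1⁆ =
      ⁅(RF.gen W 0 : RF W 3), RF.gen W 2 ^ k * RF.gen W 1 * RF.gen W 2 ^ (-k)⁆ := by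
    intro k
    rw [map_commutatorElement, zpow_fixed α _ hαb, zpow_conj α _ _ hαt hα2]
  have hset : {x : RF W 3 | ∃ k : ℕ, x = ⁅(RF.gen W 0 : RF W 3),
      RF.gen W 2 ^ (-(k : ℤ)) * RF.gen W 1 * RF.gen W 2 ^ (k : ℤ)⁆} =
      {x : RF W 3 | ∃ k : ℕ, x = (α ^ (-(k : ℤ))) ⁅(RF.gen W 0 : RF W 3), RF.gen W 1⁆} := by
    ext x
    simp only [Set.mem_ofPred_eq, hρ, neg_neg]
  rw [hset] at hT
  apply M_extract W
  refine Subgroup.normalClosure_mono ?_ (hopf_auto' α _ hT)
  rintro _ ⟨k, rfl⟩
  exact ⟨-((k : ℤ) + 1), by omega, hρ _⟩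

/-! ## Quotients in two steps -/

theorem quot_two {F : Type} [Group F] (A B : Set F) :
    Nonempty (((F ⧸ Subgroup.normalClosure A) ⧸
      Subgroup.normalClosure (QuotientGroup.mk' (Subgroup.normalClosure A) '' B)) ≃*
      (F ⧸ Subgroup.normalClosure (A ∪ B))) := by
  let φ : F →* ((F ⧸ Subgroup.normalClosure A) ⧸
      Subgroup.normalClosure (QuotientGroup.mk' (Subgroup.normalClosure A) '' B)) :=
    (QuotientGroup.mk' _).comp (QuotientGroup.mk' _)
  have hφ : Function.Surjective φ :=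
    (QuotientGroup.mk'_surjective _).comp (QuotientGroup.mk'_surjective _)
  have hker : φ.ker = Subgroup.normalClosure (A ∪ B) := by
    apply le_antisymm
    · intro x hx
      have h1 : QuotientGroup.mk' (Subgroup.normalClosure A) x ∈
          Subgroup.normalClosure (QuotientGroup.mk' (Subgroup.normalClosure A) '' B) :=
        (QuotientGroup.eq_one_iff _).1 hx
      rw [← Subgroup.map_normalClosure B _ (QuotientGroup.mk'_surjective _)] at h1
      obtain ⟨y, hy, hyx⟩ := h1
      have h2 : y⁻¹ * x ∈ Subgroup.normalClosure A := QuotientGroup.eq.1 hyx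
      have h3 : x = y * (y⁻¹ * x) := by group
      rw [h3]
      exact Subgroup.mul_mem _ (Subgroup.normalClosure_mono Set.subset_union_right hy)
        (Subgroup.normalClosure_mono Set.subset_union_left h2)
    · apply Subgroup.normalClosure_le_normal
      rintro x (hx | hx)
      · have h1 : QuotientGroup.mk' (Subgroup.normalClosure A) x = 1 :=
          (QuotientGroup.eq_one_iff _).2 (Subgroup.subset_normalClosure hx)
        change QuotientGroup.mk' _ (QuotientGroup.mk' (Subgroup.normalClosure A) x) = 1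
        rw [h1, map_one]
      · exact (QuotientGroup.eq_one_iff _).2 (Subgroup.subset_normalClosure ⟨x, hx, rfl⟩)
  exact ⟨((QuotientGroup.quotientMulEquivOfEq hker.symm).trans
    (QuotientGroup.quotientKerEquivOfSurjective φ hφ)).symm⟩

/-! ## The maximal condition on normal subgroups -/

theorem maxN_of_closure {G : Type} [Group G]
    (h : ∀ N : Subgroup G, N.Normal → ∃ S : Finset G, N = Subgroup.normalClosure (S : Set G)) :
    MaxN G := by
  classical
  rw [K_maxN_iff]
  intro f hf hn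
  have hmem : ∀ x, x ∈ ⨆ n, f n ↔ ∃ n, x ∈ f n := fun x =>
    Subgroup.mem_iSup_of_directed hf.directed_le
  obtain ⟨S, hS⟩ := h (⨆ n, f n) ⟨fun x hx g => by
    rw [hmem] at hx ⊢
    obtain ⟨n, hx⟩ := hx
    exact ⟨n, (hn n).conj_mem x hx g⟩⟩
  have h1 : ∀ s ∈ S, ∃ n, s ∈ f n := fun s hs => by
    rw [← hmem, hS]
    exact Subgroup.subset_normalClosure hs
  choose! g hg using h1
  refine ⟨S.sup g, fun m hm => le_antisymm ?_ (hf hm)⟩
  have h2 : f m ≤ ⨆ n, f n := le_iSup f m
  refine h2.trans ?_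
  rw [hS]
  have := hn (S.sup g)
  exact Subgroup.normalClosure_le_normal fun s hs => hf (Finset.le_sup hs) (hg s hs)

/-- three generators -/
theorem gen_quot (W : Set (FreeGroup ℕ)) (n : ℕ) (N : Subgroup (RF W n)) [N.Normal] :
    Subgroup.closure (Set.range fun i : Fin n => QuotientGroup.mk' N (RF.gen W i)) = ⊤ := by
  let φ : FreeGroup (Fin n) →* RF W n ⧸ N :=
    (QuotientGroup.mk' N).comp (QuotientGroup.mk' (verb W n))
  have hφ : Function.Surjective φ :=
    (QuotientGroup.mk'_surjective _).comp (QuotientGroup.mk'_surjective _)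
  have h1 : Set.range (fun i : Fin n => QuotientGroup.mk' N (RF.gen W i)) =
      φ '' Set.range FreeGroup.of := by
    rw [← Set.range_comp]
    rfl
  rw [h1, ← MonoidHom.map_closure, FreeGroup.closure_range_of, ← MonoidHom.range_eq_map,
    MonoidHom.range_eq_top]
  exact hφ

/-! ## Counting -/

/-- only countably many finitely generated groups -/
theorem countable_of_UI {W : Set (FreeGroup ℕ)} {d : ℕ}
    (hu : ∃ u : UI, ∀ (G : Type) [Group G], InVar (Wd W d) G → u.Grp G) (ι : Type)
    (G : ι → Type) [∀ i, Group (G i)] (hfg : ∀ i, Group.FG (G i)) (hG : ∀ i, InVar W (G i))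
    (hd : ∀ i, derivedSeries (G i) d = ⊥) (hne : ∀ i j, Nonempty (G i ≃* G j) → i = j) :
    Countable ι := by
  obtain ⟨u, hu⟩ := hu
  refine countable_of_maxN (Wd W d) (fun n => ?_) ι G hfg (fun i => inVar_Wd (hG i) (hd i)) hne
  have : Group.FG (RF (Wd W d) n) := QuotientGroup.fg _
  have : Countable (RF (Wd W d) n) := (QuotientGroup.mk'_surjective (verb (Wd W d) n)).countable
  exact (U_main u d _ (hu _ (RF_inVar _ n)) (derived_of_Wd (RF_inVar _ n))).2

end Pool.Agent.Y968.SV
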