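import Pool.Agent.Y968.SV.Basic

/-!
# Soluble varieties of groups: counting the quotients of one group

Additions to the library `H53R2` (adaptations of `small_no_cantor` and `exists_UI_small`).
-/

set_option autoImplicit false

namespace Pool.Agent.Y968.SV

open Pool.Agent.H53R2
open scoped commutatorElement Cardinal

/-- the group `P` has fewer than continuum many quotients up to isomorphism -/
def FewQuot (P : Type) [Group P] : Prop :=
  ∀ (ι : Type) (N : ι → Subgroup P) [∀ i, (N i).Normal],
    (∀ i j, Nonempty ((P ⧸ N i) ≃* (P ⧸ N j)) → i = j) → Cardinal.mk ι < Cardinal.continuum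

theorem few_no_cantor {P : Type} [Group P] (hP : FewQuot P) (hfg : Group.FG P)
    (N : (ℕ → Bool) → Subgroup P) (hN : ∀ s, (N s).Normal) : ¬ Function.Injective N := by
  intro hinj
  let r : Setoid (ℕ → Bool) :=
    { r := fun s s' => Nonempty ((P ⧸ N s) ≃* (P ⧸ N s'))
      iseqv := ⟨fun s => ⟨MulEquiv.refl _⟩, fun ⟨e⟩ => ⟨e.symm⟩, fun ⟨e⟩ ⟨f⟩ => ⟨e.trans f⟩⟩ }
  have h1 : Cardinal.mk (Quotient r) < Cardinal.continuum := by
    refine hP (Quotient r) (fun q => N q.out) ?_
    intro i j hij
    rw [← Quotient.out_eq i, ← Quotient.out_eq j]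
    exact Quotient.sound hij
  have h2 : ∀ q : Quotient r, Countable {s : ℕ → Bool // (Quotient.mk r s) = q} := by
    intro q
    have hPc := L_countable P hfg
    have hQc : Countable (P ⧸ N q.out) := (QuotientGroup.mk'_surjective (N q.out)).countable
    have hHc := L_hom_countable P (P ⧸ N q.out) hfg
    have h3 : ∀ s : {s : ℕ → Bool // (Quotient.mk r s) = q},
        Nonempty ((P ⧸ N s.1) ≃* (P ⧸ N q.out)) := by
      rintro ⟨s, hs⟩
      have : r s q.out := Quotient.exact (by rw [Quotient.out_eq, hs])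
      exact this
    let e := fun s => (h3 s).some
    have h4 : Function.Injective (fun s : {s : ℕ → Bool // (Quotient.mk r s) = q} =>
        (e s).toMonoidHom.comp (QuotientGroup.mk' (N s.1))) := by
      intro s t hst
      have h5 := congrArg MonoidHom.ker hst
      have h6 : ∀ s : {s : ℕ → Bool // (Quotient.mk r s) = q},
          ((e s).toMonoidHom.comp (QuotientGroup.mk' (N s.1))).ker = N s.1 := by
        intro s
        rw [← MonoidHom.comap_ker, (MonoidHom.ker_eq_bot_iff _).mpr (e s).injective]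
        show (QuotientGroup.mk' (N s.1)).ker = _
        exact QuotientGroup.ker_mk' _
      simp only [h6] at h5
      exact Subtype.ext (hinj h5)
    exact h4.countable
  have h3 : Cardinal.mk (ℕ → Bool) ≤ Cardinal.mk (Quotient r) * Cardinal.aleph0 := by
    rw [← Cardinal.mk_congr (Equiv.sigmaFiberEquiv (Quotient.mk r)), Cardinal.mk_sigma,
      ← Cardinal.sum_const']
    exact Cardinal.sum_le_sum _ _ fun q => Cardinal.mk_le_aleph0_iff.mpr (h2 q)
  have h4 : Cardinal.mk (ℕ → Bool) = Cardinal.continuum := by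
    simp
  rw [h4] at h3
  exact absurd h3 (not_le.mpr (Cardinal.mul_lt_of_lt Cardinal.aleph0_le_continuum h1
    Cardinal.aleph0_lt_continuum))

/-- the universal identity from the number of the normal subgroups of one group -/
theorem cantor_UI {W : Set (FreeGroup ℕ)} (hW : ∀ N : (ℕ → Bool) → Subgroup (RF W 3),
    (∀ s, (N s).Normal) → ¬ Function.Injective N) :
    ∃ u : UI, ∀ (G : Type) [Group G], InVar W G → u.Grp G := by
  classical
  set b : RF W 3 := RF.gen W 0 with hb
  set m : RF W 3 := RF.gen W 1 with hm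
  set t : RF W 3 := RF.gen W 2 with ht
  obtain ⟨α, hα1, hα2⟩ := J_aut W 3 1 2 (by decide)
  have hαb : α b = b := hα1 0 (by decide)
  have hαt : α t = t := hα1 2 (by decide)
  have hαm : α m = t * m * t⁻¹ := hα2
  let ρ : ℤ → RF W 3 := fun j => ⁅b, t ^ j * m * t ^ (-j)⁆
  have hρ : ∀ i j : ℤ, (α ^ i) (ρ j) = ρ (i + j) := by
    intro i j
    change (α ^ i) ⁅b, t ^ j * m * t ^ (-j)⁆ = ⁅b, t ^ (i + j) * m * t ^ (-(i + j))⁆
    rw [map_commutatorElement, zpow_fixed α b hαb, map_mul, map_mul, map_zpow, map_zpow,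
      zpow_fixed α t hαt, zpow_conj α t m hαt hαm]
    congr 1
    rw [zpow_neg, zpow_neg, zpow_neg, zpow_add]
    group
  let e : ℤ ≃ ℕ := Equiv.intEquivNat
  have hnot := hW
    (fun s => Subgroup.normalClosure {x | ∃ j : ℤ, s (e j) = true ∧ x = ρ j})
    (fun s => Subgroup.normalClosure_normal)
  have hex : ∃ i : ℤ, ρ i ∈ Subgroup.normalClosure {x | ∃ j : ℤ, j ≠ i ∧ x = ρ j} := by
    by_contra hcon
    push Not at hcon
    apply hnot
    have key : ∀ s s' : ℕ → Bool,
        Subgroup.normalClosure {x | ∃ j : ℤ, s (e j) = true ∧ x = ρ j} =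
        Subgroup.normalClosure {x | ∃ j : ℤ, s' (e j) = true ∧ x = ρ j} →
        ∀ j : ℤ, s (e j) = true → s' (e j) = true := by
      intro s s' hss j hj
      by_contra hj'
      apply hcon j
      have h1 : ρ j ∈ Subgroup.normalClosure {x | ∃ j : ℤ, s (e j) = true ∧ x = ρ j} :=
        Subgroup.subset_normalClosure ⟨j, hj, rfl⟩
      rw [hss] at h1
      refine Subgroup.normalClosure_mono ?_ h1
      rintro x ⟨l, hl, rfl⟩
      refine ⟨l, ?_, rfl⟩
      rintro rfl
      exact hj' hl
    intro s s' hss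
    funext n
    obtain ⟨j, rfl⟩ := e.surjective n
    rw [Bool.eq_iff_iff]
    exact ⟨key s s' hss j, key s' s hss.symm j⟩
  obtain ⟨i, hi⟩ := hex
  apply M_extract W
  have h1 : (α ^ (-i)) (ρ i) ∈ (Subgroup.normalClosure {x | ∃ j : ℤ, j ≠ i ∧ x = ρ j}).map
      ((α ^ (-i) : MulAut (RF W 3)) : RF W 3 ≃* RF W 3).toMonoidHom := ⟨ρ i, hi, rfl⟩
  rw [map_normalClosure_aut, hρ, neg_add_cancel] at h1
  have h2 : ρ 0 = ⁅b, m⁆ := by
    change ⁅b, t ^ (0 : ℤ) * m * t ^ (-(0 : ℤ))⁆ = ⁅b, m⁆
    simp
  rw [h2] at h1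
  refine Subgroup.normalClosure_mono ?_ h1
  rintro _ ⟨_, ⟨j, hj, rfl⟩, rfl⟩
  refine ⟨-i + j, fun h => hj (by omega), ?_⟩
  exact hρ (-i) j

/-- the universal identity from the number of the quotients of one group -/
theorem few_UI {W : Set (FreeGroup ℕ)} (hW : FewQuot (RF W 3)) :
    ∃ u : UI, ∀ (G : Type) [Group G], InVar W G → u.Grp G :=
  cantor_UI fun N hN => few_no_cantor hW (QuotientGroup.fg _) N hN

/-- a countable group with the maximal condition on normal subgroups has only countably many
normal subgroups -/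
theorem countable_normal {G : Type} [Group G] [Countable G] (h : MaxN G) :
    Countable {N : Subgroup G // N.Normal} := by
  choose S hS using fun N : {N : Subgroup G // N.Normal} => h.normalClosure N.1 N.2
  have hinj : Function.Injective S := by
    intro N N' hN
    apply Subtype.ext
    rw [hS N, hS N', hN]
  exact hinj.countable

end Pool.Agent.Y968.SV
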